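import Mathlib

/-!
# MP_332034_al : lattices embedding into subspace lattices over division rings

Every lattice that embeds into the lattice of subspaces of a left vector space `V` over a
division ring `D` embeds into the lattice of subspaces of a vector space over a field: restrict
the scalars to the centre of `D`. The inclusion `Sub_D(V) → Sub_{Z(D)}(V)` preserves meets
(intersections) and joins (sums).
-/

namespace Pool.Agent.Results.MP_332034_al.SkewLatticeIsFieldLattice

universe u v w

/-- `EmbedsSkew L`: the lattice `L` embeds (preserving binary meets and joins) into the lattice
of all `D`-subspaces of some left vector space `V` over some division ring `D`. -/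
def EmbedsSkew (L : Type u) [Lattice L] : Prop :=
  ∃ (D : Type v) (_ : DivisionRing D) (V : Type w) (_ : AddCommGroup V) (_ : Module D V)
    (f : LatticeHom L (Submodule D V)), Function.Injective f

/-- `EmbedsField L`: the lattice `L` embeds (preserving binary meets and joins) into the lattice
of all `F`-subspaces of some vector space `W` over some field `F`. -/
def EmbedsField (L : Type u) [Lattice L] : Prop :=
  ∃ (F : Type v) (_ : Field F) (W : Type w) (_ : AddCommGroup W) (_ : Module F W)
    (f : LatticeHom L (Submodule F W)), Function.Injective f

/-- **A lattice embeds into the subspace lattice of a vector space over a division ring if and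
only if it embeds into the subspace lattice of a vector space over a field** (the field and the
space being taken in the same universes). So the answer to Q1 is negative, and so is the answer to
the finite version Q2. -/
theorem result (L : Type u) [Lattice L] :
    EmbedsSkew.{u, v, w} L ↔ EmbedsField.{u, v, w} L := by
  constructor
  · rintro ⟨D, hD, V, hV, hM, f, hf⟩
    refine ⟨Subring.center D, inferInstance, V, hV, inferInstance, ?_⟩
    refine ⟨⟨⟨fun x => (f x).restrictScalars (Subring.center D), ?_⟩, ?_⟩, ?_⟩
    · intro a b
      rw [map_sup]
      exact map_sup (Submodule.restrictScalarsLatticeHom (Subring.center D) D V) (f a) (f b)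
    · intro a b
      show ((f (a ⊓ b)).restrictScalars (Subring.center D)) = _
      rw [map_inf]
      rfl
    · intro a b hab
      apply hf
      exact Submodule.restrictScalars_injective (Subring.center D) D V hab
  · rintro ⟨F, hF, W, hW, hM, f, hf⟩
    exact ⟨F, hF.toDivisionRing, W, hW, hM, f, hf⟩

end Pool.Agent.Results.MP_332034_al.SkewLatticeIsFieldLattice
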